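import Pool.Agent.Y158.FQ.K4

/-!
# Sections for Fermat quotients over `ℚ(ζ_ℓ)` with a local point close to a cusp

Let `ℓ` be an odd regular prime, that is, `ℓ` does not divide the class number of `K = ℚ(ζ_ℓ)`, and
let `λ` be the place of `K` above `ℓ`.  Let `a`, `b` be natural numbers such that `ℓ` does not divide
`a`, `b`, `a + b`, and let `X` be the smooth projective curve over `K` with the equation

  `y ^ ℓ = x ^ a (1 - x) ^ b`,

of genus `(ℓ - 1) / 2`.  It has one point above each of the points `0`, `1`, `∞` of the `x`-line, and
this point is rational.  We prove: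

*Let `s` be a section of the geometrically pro-`ℓ` fundamental group `π₁(X)^(ℓ) → G_K` which over the
completion `K_λ` is given by a local point `P` such that `x(P)` is congruent to `0`, `1` or `∞` modulo
`λ`.  Then `s` is the section of the rational point of `X` above `0`, `1` or `∞`.*

Nothing is assumed at the other places of `K`, and the local point `P` is not assumed to be close to
the cusp in any stronger sense: the condition is the one of the second case of Fermat's last theorem.
(In the first case, where `x(P)` and `1 - x(P)` are units at `λ`, the classes of `x` and `1 - x` may be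
those of units of `K` which are not `ℓ`-th powers.)  Some condition at `λ` is natural for pro-`ℓ`
sections: Hoshi constructed nongeometric pro-`ℓ` sections of curves over number fields for regular
primes `ℓ`.

The theorem is stated for the function fields `F` of transcendence degree one over `K` with a
nonconstant element `x`, and for the sections `s` of a quotient `Gal(N/F)` of the absolute Galois
group of `F` which fix an element `y` of `N` with `y ^ ℓ = x ^ a (1 - x) ^ b`, where `N` contains the
field `N₀` such that `Gal(N₀/K(x, y))` is the geometrically pro-`ℓ` fundamental group of `X`.  If `y` is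
in `F`, these are the sections of the curves over `K` with a nonconstant map to `X`, and of their open
subschemes (`proEll_unramified` below).  For `F = K(x)` these are sections for the line minus three
points along which `x ^ a (1 - x) ^ b` is an `ℓ`-th power.

The local point is a place `p` of `N` with values in the algebraic closure of the completion `K_v` at
the place `v = λ`.  The conclusion is that `x` has the value `0`, `1` or `∞` at `p` and that all
automorphisms `s g` map the valuation ring of `p` on `N₀` to itself.  So the section of
`Gal(N₀/K(x, y))` which is induced by `s` has image in the decomposition group of a valuation ring of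
`N₀` above one of the three rational points.  This is the conclusion of the valuative form of the
section conjecture for the geometrically pro-`ℓ` fundamental group of `X`; it means that the section
is the one attached to this point.

Proof.  Let `u ^ ℓ = x`, `w ^ ℓ = 1 - x`, `u ^ a w ^ b = y`.  The field `N₀` is also the geometrically
pro-`ℓ` extension of the Fermat curve `u ^ ℓ + w ^ ℓ = 1`, which is an unramified covering of `X` of
degree `ℓ`.  The section `s` lifts to a twist `t U ^ ℓ + t' W ^ ℓ = 1` of the Fermat curve, with `t`,
`t'` in `Kˣ` such that `t ^ a t' ^ b` is an `ℓ`-th power.  By a weight argument the elements of the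
inertia groups of `G_K` at the places prime to `ℓ` do not act on the Fermat curve by a rotation without
fixed points; so the valuations of `t` and `t'` at these places are divisible by `ℓ`.  If `x(P)` is
congruent to `0` modulo `λ`, the same holds at `λ` for `t'`, hence for `t`, so `x(P)` is divisible by
`λ ^ ℓ`, and `t'` is, up to an `ℓ`-th power, a unit of `K` which is congruent to an `ℓ`-th power of the
completion, hence to a rational integer, modulo `ℓ`.  By Kummer's lemma this unit is an `ℓ`-th power.
So `t'` and `t` are `ℓ`-th powers.  The other two cases are similar, with `1 - x` and `1 / x` in place of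
`x`.  So `s` lifts to the Fermat curve, where Kummer's proof of Fermat's last theorem for regular primes
can be carried out in the fixed field of the section (`MP_c1dca2_ag.KummerProEll`).
-/

set_option autoImplicit false

open IsDedekindDomain NumberField Pool.Agent.W620.SC Pool.Agent.TH954

namespace Pool.Agent.Results.MP_896029_ag.FermatQuotientsCyclotomic

section definitions

/-- The maximal geometrically pro-`ℓ` unramified extension `N₀` of `K(x, y)` in `Ω`: the compositum of
the finite Galois extensions in `Ω` of `K̄(x, y)` whose degree is a power of `ℓ` and in which no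
valuation ring over `K̄` ramifies. -/
noncomputable def ProEll (ℓ : ℕ) (K : Type) {Ω : Type} [Field K] [Field Ω] [Algebra K Ω] (x y : Ω) :
    Set Ω :=
  Pool.Agent.Y157.PS.geomPro ℓ K (IntermediateField.adjoin K {x, y}) Ω

/-- The value of `x` at the place `p` is in the open unit disc around `0`, `1` or `∞`: one of `x`,
`1 - x`, `1 / x` has a value in `K_v` whose valuation is positive. -/
def NearCusp {K F N : Type} [Field K] [NumberField K] [Field F] [Field N] [Algebra F N]
    [Algebra K N] (v : HeightOneSpectrum (𝓞 K))
    (p : Plc K N (AlgebraicClosure (v.adicCompletion K))) (x : F) : Prop :=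
  ∃ c : v.adicCompletion K, Valued.v c < 1 ∧
    (p.val (algebraMap F N x) (algebraMap _ (AlgebraicClosure (v.adicCompletion K)) c) ∨
      p.val (algebraMap F N (1 - x)) (algebraMap _ (AlgebraicClosure (v.adicCompletion K)) c) ∨
      p.val (algebraMap F N x)⁻¹ (algebraMap _ (AlgebraicClosure (v.adicCompletion K)) c))

end definitions

/-- If `x`, `y` are in `F`, the extension `N₀` is contained in the maximal extension of `F` which is
unramified at a set `U` of valuation rings over `K`; so the theorem applies to the fundamental group
of every curve with function field `F`. -/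
theorem proEll_unramified {K F Ω : Type} [Field K] [CharZero K] [Field F] [Field Ω] [Algebra K F]
    [Algebra F Ω] [Algebra K Ω] [IsScalarTower K F Ω] [IsAlgClosed Ω] [Algebra.IsAlgebraic F Ω]
    (ℓ : ℕ) [Fact ℓ.Prime] (x y : F) (hx : Transcendental K x)
    (hF : Algebra.IsAlgebraic (IntermediateField.adjoin K {x}) F) (U : Set (ValuationSubring F))
    (hU : ∀ O ∈ U, ∀ c : K, algebraMap K F c ∈ O) :
    ProEll ℓ K (algebraMap F Ω x) (algebraMap F Ω y) ⊆ unramified F Ω U :=
  fun z hz => Pool.Agent.Y158.FQ.geomPro_unr' ℓ x hx hF _
    (IntermediateField.subset_adjoin K _ (by simp)) U hU z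
    ((Pool.Agent.Y158.FQ.geomPro_base (k := K) (K := K) (X := x) (Y := y) (c := 1) (c' := 1)
      (one_mem _) (one_mem _) one_ne_zero one_ne_zero (by rw [one_mul]) (by rw [one_mul]) z).2 hz)

end Pool.Agent.Results.MP_896029_ag.FermatQuotientsCyclotomic

open Pool.Agent.Results.MP_896029_ag.FermatQuotientsCyclotomic in
/-- **Sections for Fermat quotients over `ℚ(ζ_ℓ)`, second case.**  Let `ℓ` be an odd prime that does
not divide the class number of `K = ℚ(ζ_ℓ)`, let `a`, `b` be natural numbers with `ℓ ∤ a`, `ℓ ∤ b`,
`ℓ ∤ a + b`, let `F` be a function field of transcendence degree one over `K` with algebraic closure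
`Ω`, and let `x` be a nonconstant element of `F`.  Let `N` be an extension of `F` in `Ω`, let `s` be a
section of `Gal(N/F) → G_K`, and let `y` be an element of `N` with `y ^ ℓ = x ^ a (1 - x) ^ b` that is
fixed by `s`, for example an element of `F`.  Assume that `N` contains `ProEll ℓ K x y`, and let `p` be
a place of `N` with values in the algebraic closure of the completion of `K` at the place `v` above
`ℓ` that gives `s` over this completion, such that the value of `x` at `p` is in the open unit disc
around `0`, `1` or `∞`.  Then `x` has the value `0`, `1` or `∞` at `p`, and `s` is, on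
`ProEll ℓ K x y`, a section with values in the decomposition group of `p`. -/
theorem Pool.Agent.Results.MP_896029_ag.FermatQuotientsCyclotomic.result
    (ℓ : ℕ) [Fact ℓ.Prime] (hℓ : ℓ ≠ 2) (K : Type) [Field K] [NumberField K]
    [IsCyclotomicExtension {ℓ} ℚ K] (hreg : ¬ ℓ ∣ classNumber K) (a b : ℕ) (ha : ¬ ℓ ∣ a)
    (hb : ¬ ℓ ∣ b) (hab : ¬ ℓ ∣ a + b)
    (F Ω B : Type) [Field F] [Field Ω] [Field B] [Algebra K F] [Algebra F Ω] [Algebra K Ω]
    [Algebra K B] [IsScalarTower K F Ω] [IsAlgClosed Ω] [Algebra.IsAlgebraic F Ω]
    [IsAlgClosure K B] (x : F) (hx : Transcendental K x)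
    (hF : Algebra.IsAlgebraic (IntermediateField.adjoin K {x}) F)
    (N : IntermediateField F Ω) (s : GalSection K F N B) (y : N)
    (hxy : y ^ ℓ = algebraMap F N (x ^ a * (1 - x) ^ b))
    (hys : ∀ g : B ≃ₐ[K] B, s.s g y = y)
    (hN : ProEll ℓ K (algebraMap F Ω x) (y : Ω) ⊆ N)
    (v : HeightOneSpectrum (𝓞 K)) (hv : (ℓ : 𝓞 K) ∈ v.asIdeal)
    (p : Plc K N (AlgebraicClosure (v.adicCompletion K)))
    (hp : s.GivenBy (v.adicCompletion K) p) (hnear : NearCusp v p x) :
    (p.val (algebraMap F N x) 0 ∨ p.val (algebraMap F N x) 1 ∨ p.val (algebraMap F N x)⁻¹ 0) ∧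
    ∀ (g : B ≃ₐ[K] B) (z : N), (z : Ω) ∈ ProEll ℓ K (algebraMap F Ω x) (y : Ω) →
      (s.s g z ∈ p.W ↔ z ∈ p.W) := by
  have hℓp : ℓ.Prime := Fact.out
  have hℓ2 : 2 < ℓ := lt_of_le_of_ne hℓp.two_le (Ne.symm hℓ)
  have hodd : Odd ℓ := hℓp.odd_of_ne_two hℓ
  have hcop : (classNumber K).Coprime ℓ := ((Nat.Prime.coprime_iff_not_dvd hℓp).2 hreg).symm
  have hKL := Pool.Agent.Y158.KL.kummer_lemma (IsCyclotomicExtension.zeta_spec ℓ ℚ K) hℓ2 hcop
  obtain ⟨ζ, hζ⟩ : ∃ ζ : K, IsPrimitiveRoot ζ ℓ := ⟨_, IsCyclotomicExtension.zeta_spec ℓ ℚ K⟩
  have hvl : v = Pool.Agent.Y158.KL.lam hζ := by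
    by_contra hne
    exact Pool.Agent.Y158.GR.ell_notMem hζ hne hv
  subst hvl
  obtain ⟨c, hc, hc'⟩ := hnear
  exact Pool.Agent.Y158.FQ.kFin2 hζ hodd hcop hKL ha hb hab x hx hF N s y hxy hys hN p hp hc hc'
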