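import Pool.Agent.Y157.PV.Data

/-!
# Sections over number fields and the places at one prime

Let `k` be a number field and `v` a finite place of `k`, or let `k` be a finite extension of `ℚ_p`;
more generally let `A` be a discrete valuation ring with finite residue field and with field of
fractions `k` of characteristic zero (the local ring of `v`).  Let `ℓ` be a prime number invertible
in `A`, let `f ∈ A[x]` be a polynomial with invertible leading coefficient and separable reduction,
whose degree is at least 3 and divisible by `ℓ`, let `d ∈ k` be an element whose valuation is not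
divisible by `ℓ`, and let `C` be the smooth projective curve `d y^ℓ = f(x)` over `k`, with function
field `F`.  Let `M` be the maximal pro-`ℓ` extension of `k̄ F` unramified over `C`, so that `Gal(M/F)`
is the geometrically pro-`ℓ` fundamental group of `C`.

Every section of `π₁(U) → G_k`, for `U = C` or an open subcurve, induces a section `t` of
`Gal(M/F) → G_k`.  For the latter we prove:

* for every prime `V` of `k̄` above `v` there is exactly one place `W = W_t(V)` of `M` above a branch
  point (a root of `f`) such that `t` maps the decomposition group of `V` into the decomposition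
  group of `W`; the branch point and the residue field of `F` at this place are fixed by the
  decomposition group of `V` (they are rational over the henselisation of `k` at `v`);
* this is already the only place above a branch point which is fixed by the single automorphism
  `t(τ)`, for any element `τ` of the inertia group of `V` which moves the `ℓ`-th roots of `d`, and
  there are such `τ`;
* hence `t` is determined by its values at one such element `τ_V` of the inertia group of each prime
  `V` above the one place `v`;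
* the image of `t` is contained in the decomposition group of a place above a branch point if and
  only if the place `W_t(V)` does not depend on `V`, and then `t` is the section of a rational branch
  point `(e, 0)`, `e ∈ k`.

So the valuative form of the section conjecture holds at the primes above `v`, and for a number field
it holds for the pro-`ℓ` quotient of the section if and only if the valuations found at the different
primes of `k̄` above this one place agree.

The fundamental group is described through valuations.  Let `U` be an open subcurve of `C`, let `Ω`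
be an algebraic closure of `F`, and let `F_U` be the maximal extension of `F` inside `Ω` which is
unramified over the closed points of `U`, that is, over their local rings, which are valuation rings
of `F`.  Then `π₁(U) = Gal(F_U/F)`, and the map `π₁(U) → G_k` is the restriction of automorphisms to
the algebraic closure of `k` in `Ω`.
-/

set_option autoImplicit false

open Polynomial

namespace Pool.Agent.Results.MP_896029_ag.PlacesAtOnePrime

section definitions

variable (ℓ : ℕ) (k F Ω : Type) [Field k] [Field F] [Field Ω] [Algebra k F] [Algebra F Ω]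
  [Algebra k Ω]

/-- The inertia group of the valuation ring `W` of `Ω`, as a subgroup of `Gal(Ω/F)`: the
automorphisms of `Ω` over `F` that map `W` onto itself and act as the identity on its residue
field. -/
noncomputable def inertia (W : ValuationSubring Ω) : Subgroup (Ω ≃ₐ[F] Ω) :=
  (W.inertiaSubgroup F).map (W.decompositionSubgroup F).subtype

/-- `F_U`, for a set `U` of valuation rings of `F`: the elements of `Ω` fixed by the inertia groups
of all valuation rings `W` of `Ω` with `W ∩ F ∈ U`.  If `Ω` is an algebraic closure of a field `F`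
of characteristic zero, this is the maximal extension of `F` in `Ω` unramified over `U`. -/
noncomputable def unramified (U : Set (ValuationSubring F)) : IntermediateField F Ω :=
  ⨅ W : {W : ValuationSubring Ω // W.comap (algebraMap F Ω) ∈ U},
    IntermediateField.fixedField (inertia F Ω W.1)

/-- `k̄ F`, the compositum of `F` and of the algebraic closure of `k` in `Ω`. -/
noncomputable def geomField : IntermediateField F Ω :=
  IntermediateField.adjoin F (algebraicClosure k Ω : Set Ω)

/-- The algebraic extension `L` of `K` in `Ω` is unramified at all valuation rings of `Ω` that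
contain `k`: every nonzero element of `L` has the same valuation as an element of `K`.  (If `K` is
a function field of one variable over the algebraic closure of `k` and `k` has characteristic zero,
then this says that `L/K` is unramified over all points of the smooth projective curve.) -/
def Unramified {k K Ω : Type} [Field k] [Field K] [Field Ω] [Algebra k Ω] [Algebra K Ω]
    (L : IntermediateField K Ω) : Prop :=
  ∀ W : ValuationSubring Ω, (∀ c : k, algebraMap k Ω c ∈ W) → ∀ z ∈ L, z ≠ 0 →
    ∃ t : K, t ≠ 0 ∧ z / algebraMap K Ω t ∈ W ∧ (z / algebraMap K Ω t)⁻¹ ∈ W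

/-- `L/K` is a finite Galois extension whose degree is a power of `ℓ`. -/
def FiniteProEll (ℓ : ℕ) {K Ω : Type} [Field K] [Field Ω] [Algebra K Ω]
    (L : IntermediateField K Ω) : Prop :=
  FiniteDimensional K L ∧ IsGalois K L ∧ ∃ m : ℕ, Module.finrank K L = ℓ ^ m

/-- The maximal unramified pro-`ℓ` extension of `K` in `Ω`: the compositum of the finite Galois
extensions of `K` whose degree is a power of `ℓ` and which are unramified. -/
noncomputable def maxProEll (ℓ : ℕ) (k K Ω : Type) [Field k] [Field K] [Field Ω] [Algebra k Ω]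
    [Algebra K Ω] : IntermediateField K Ω :=
  ⨆ L : {L : IntermediateField K Ω // FiniteProEll ℓ L ∧ Unramified (k := k) L}, L.1

/-- `M`, the maximal unramified pro-`ℓ` extension of `k̄ F` in `Ω`, as an extension of `F`. -/
noncomputable def proEllField : IntermediateField F Ω :=
  (maxProEll ℓ k (geomField k F Ω) Ω).restrictScalars F

/-- The map `τ : M → M` acts as `σ : K → K` on the elements that the fields `K` and `M` have in
common when they are regarded as subfields of `Ω` through `i` and `j`. -/
def ActsAs {K M Ω : Type} [Field K] [Field M] [Field Ω] (i : K →+* Ω) (j : M →+* Ω) (σ : K → K)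
    (τ : M → M) : Prop :=
  ∀ c z, j z = i c → j (τ z) = i (σ c)

/-- Let `k ⊆ K ⊆ Ω` and `F ⊆ N ⊆ Ω` be fields.  A splitting of `Gal(N/F) → Gal(K/k)`: a continuous
homomorphism `s` from `Gal(K/k)` to `Gal(N/F)` such that `s(σ)` acts as `σ` on the elements of
`K ∩ N`. -/
structure Splitting (K N : Type) [Field K] [Field N] [Algebra k K] [Algebra F N] [Algebra K Ω]
    [Algebra N Ω] where
  /-- the homomorphism `Gal(K/k) → Gal(N/F)` -/
  toHom : (K ≃ₐ[k] K) →* (N ≃ₐ[F] N)
  cont : Continuous toHom
  compat : ∀ σ : K ≃ₐ[k] K, ActsAs (algebraMap K Ω) (algebraMap N Ω) σ (toHom σ)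

end definitions

section places

/-- The map `γ` maps the valuation ring `W` onto itself. -/
def Preserves {N : Type} [Field N] (W : ValuationSubring N) (γ : N → N) : Prop :=
  ∀ z, γ z ∈ W ↔ z ∈ W

/-- The map `σ` maps the valuation ring `V` onto itself and acts as the identity on its residue
field. -/
def Inertial {K : Type} [Field K] (V : ValuationSubring K) (σ : K → K) : Prop :=
  Preserves V σ ∧ ∀ z ∈ V, σ z - z ∈ V.nonunits

/-- The valuation ring `V` of `K` lies over the subring `A` of `k`: `V ∩ k = A`. -/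
def LiesOver (A k : Type) {K : Type} [CommRing A] [Field k] [Field K] [Algebra A k] [Algebra k K]
    (V : ValuationSubring K) : Prop :=
  ∀ c : k, algebraMap k K c ∈ V ↔ ∃ a : A, algebraMap A k a = c

variable {k F Ω : Type} [Field k] [Field F] [Field Ω] [Algebra k F] [Algebra F Ω] [Algebra k Ω]
  {M : IntermediateField F Ω}

/-- The valuation ring `W` of `M` is above a branch point: it contains `k`, and the function `f(x)` is
in its maximal ideal. -/
def AboveBranchPoint (f : k[X]) (x : F) (W : ValuationSubring M) : Prop :=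
  (∀ c : k, algebraMap F M (algebraMap k F c) ∈ W) ∧ algebraMap F M (aeval x f) ∈ W.nonunits

/-- The function `z ∈ F` has the value `c ∈ k̄` at `W`: `z - c` is in the maximal ideal of `W`. -/
def HasValue (W : ValuationSubring M) (z : F) (c : algebraicClosure k Ω) : Prop :=
  ∃ w ∈ W.nonunits, (w : Ω) = algebraMap F Ω z - c

/-- `t` is the restriction of the section `s` of `Gal(N/F) → G_k` to `M ⊆ N`. -/
def Induces {N : IntermediateField F Ω} (s : Splitting k F Ω (algebraicClosure k Ω) N)
    (t : Splitting k F Ω (algebraicClosure k Ω) M) : Prop :=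
  ∀ (σ : algebraicClosure k Ω ≃ₐ[k] algebraicClosure k Ω) (z : N) (w : M), (w : Ω) = z →
    (t.toHom σ w : Ω) = s.toHom σ z

/-- `W` is above a branch point, and `t` maps the decomposition group of the valuation ring `V` of
`k̄` into the decomposition group of `W`. -/
def PlaceAt (f : k[X]) (x : F) (t : Splitting k F Ω (algebraicClosure k Ω) M)
    (V : ValuationSubring (algebraicClosure k Ω)) (W : ValuationSubring M) : Prop :=
  AboveBranchPoint f x W ∧
    ∀ σ : algebraicClosure k Ω ≃ₐ[k] algebraicClosure k Ω, Preserves V σ →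
      Preserves W (t.toHom σ)

/-- The sections of `Gal(M/F) → G_k` and the primes of `k̄` above `A`. -/
structure SectionsAndPrimes (A : Type) [CommRing A] [Algebra A k] (ℓ : ℕ) (f : k[X]) (d : k) (x : F)
    (M : IntermediateField F Ω) : Prop where
  /-- `M ⊆ F_U` for all sets `U` of valuation rings of `F` over `k`. -/
  le_unramified : ∀ U : Set (ValuationSubring F), (∀ O ∈ U, ∀ c : k, algebraMap k F c ∈ O) →
    M ≤ unramified F Ω U
  /-- Every section of `Gal(N/F) → G_k`, `M ⊆ N`, induces a section of `Gal(M/F) → G_k`. -/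
  induced : ∀ N : IntermediateField F Ω, M ≤ N →
    ∀ s : Splitting k F Ω (algebraicClosure k Ω) N,
      ∃! t : Splitting k F Ω (algebraicClosure k Ω) M, Induces s t
  /-- There is exactly one place of `t` at `V`. -/
  place : ∀ (t : Splitting k F Ω (algebraicClosure k Ω) M)
    (V : ValuationSubring (algebraicClosure k Ω)), LiesOver A k V →
      ∃! W : ValuationSubring M, PlaceAt f x t V W
  /-- It is above a branch point `(e, 0)`, where `e` is fixed by the decomposition group of `V`, and
  the values at this place of the functions in `F` are fixed by the decomposition group of `V`. -/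
  rational : ∀ (t : Splitting k F Ω (algebraicClosure k Ω) M)
    (V : ValuationSubring (algebraicClosure k Ω)) (W : ValuationSubring M), LiesOver A k V →
    PlaceAt f x t V W →
      (∃ e : algebraicClosure k Ω, aeval e f = 0 ∧ HasValue W x e ∧
        ∀ σ : algebraicClosure k Ω ≃ₐ[k] algebraicClosure k Ω, Preserves V σ → σ e = e) ∧
      (∀ z : F, algebraMap F M z ∈ W → ∃ c : algebraicClosure k Ω, HasValue W z c ∧
        ∀ σ : algebraicClosure k Ω ≃ₐ[k] algebraicClosure k Ω, Preserves V σ → σ c = c)
  /-- A single element of the inertia group which moves an `ℓ`-th root of `d` determines this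
  place. -/
  single : ∀ (t : Splitting k F Ω (algebraicClosure k Ω) M)
    (V : ValuationSubring (algebraicClosure k Ω)) (W : ValuationSubring M), LiesOver A k V →
    PlaceAt f x t V W →
    ∀ (τ : algebraicClosure k Ω ≃ₐ[k] algebraicClosure k Ω) (δ : algebraicClosure k Ω),
      Inertial V τ → δ ^ ℓ = algebraMap k (algebraicClosure k Ω) d → τ δ ≠ δ →
      ∀ W' : ValuationSubring M, AboveBranchPoint f x W' → Preserves W' (t.toHom τ) → W' = W
  /-- There are such elements of the inertia group. -/
  exists_tau : ∀ V : ValuationSubring (algebraicClosure k Ω), LiesOver A k V →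
    ∃ (τ : algebraicClosure k Ω ≃ₐ[k] algebraicClosure k Ω) (δ : algebraicClosure k Ω),
      Inertial V τ ∧ δ ^ ℓ = algebraMap k (algebraicClosure k Ω) d ∧ τ δ ≠ δ
  /-- Two sections which agree at one such element of the inertia group of every prime `V` above `A`
  are equal. -/
  determined : ∀ t t' : Splitting k F Ω (algebraicClosure k Ω) M,
    (∀ V : ValuationSubring (algebraicClosure k Ω), LiesOver A k V →
      ∃ (τ : algebraicClosure k Ω ≃ₐ[k] algebraicClosure k Ω) (δ : algebraicClosure k Ω),
        Inertial V τ ∧ δ ^ ℓ = algebraMap k (algebraicClosure k Ω) d ∧ τ δ ≠ δ ∧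
          t.toHom τ = t'.toHom τ) → t = t'
  /-- If the place of `t` at `V` does not depend on `V`, then the image of `t` is contained in the
  decomposition group of this place, which is above a rational branch point and has residue field `k`
  on `F`. -/
  valuative : ∀ (t : Splitting k F Ω (algebraicClosure k Ω) M) (W : ValuationSubring M),
    (∀ V : ValuationSubring (algebraicClosure k Ω), LiesOver A k V → PlaceAt f x t V W) ↔
      (AboveBranchPoint f x W ∧
        ∀ σ : algebraicClosure k Ω ≃ₐ[k] algebraicClosure k Ω, Preserves W (t.toHom σ)) ∧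
      (∃ e : k, f.eval e = 0 ∧ algebraMap F M (x - algebraMap k F e) ∈ W.nonunits) ∧
      ∀ z : F, algebraMap F M z ∈ W → ∃ c : k, algebraMap F M (z - algebraMap k F c) ∈ W.nonunits

end places

section curves

/-- `F = k(x, y)` is the function field of the curve `d y^ℓ = f(x)`. -/
def IsFunctionField {k F : Type} [Field k] [Field F] [Algebra k F] (ℓ : ℕ) (f : k[X]) (d : k)
    (x y : F) : Prop :=
  Transcendental k x ∧ algebraMap k F d * y ^ ℓ = aeval x f ∧
    IntermediateField.adjoin k {x, y} = (⊤ : IntermediateField k F)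

/-- The leading coefficient of `f` is invertible, the reduction of `f` is separable, and the degree
of `f` is at least 3 and divisible by `ℓ`. -/
def GoodPolynomial {A : Type} [CommRing A] [IsLocalRing A] (ℓ : ℕ) (f : A[X]) : Prop :=
  IsUnit f.leadingCoeff ∧ (f.map (IsLocalRing.residue A)).Separable ∧ ℓ ∣ f.natDegree ∧
    3 ≤ f.natDegree

/-- The valuation of `d` is not divisible by `ℓ`: `d = t ϖ^m` with `t` invertible in `A`, `ϖ` a
uniformiser and `m` not divisible by `ℓ`. -/
def ValuationPrimeTo (A : Type) {k : Type} [CommRing A] [Field k] [Algebra A k] (ℓ : ℕ) (d : k) :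
    Prop :=
  ∃ (ϖ t : A) (m : ℤ), Irreducible ϖ ∧ IsUnit t ∧ ¬ (ℓ : ℤ) ∣ m ∧
    d = algebraMap A k t * algebraMap A k ϖ ^ m

end curves

lemma iSup_congr_prop {α : Type} [CompleteLattice α] {P Q : α → Prop} (h : ∀ L, P L ↔ Q L) :
    (⨆ L : {L // P L}, L.1) = ⨆ L : {L // Q L}, L.1 := by
  have h1 : P = Q := funext fun L => propext (h L)
  subst h1
  rfl

lemma proEll_eq (ℓ : ℕ) (k F Ω : Type) [Field k] [Field F] [Field Ω] [Algebra k F] [Algebra F Ω]
    [Algebra k Ω] : proEllField ℓ k F Ω = Pool.Agent.Y157.PS.geomPro ℓ k F Ω := by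
  unfold proEllField Pool.Agent.Y157.PS.geomPro maxProEll Pool.Agent.Y157.PS.maxPro
  congr 1
  refine iSup_congr_prop fun L => ?_
  constructor
  · rintro ⟨⟨h1, h2, h3⟩, h4⟩
    refine ⟨⟨h1, h2, h3⟩, fun W hW z hz hz0 => ?_⟩
    obtain ⟨t, ht, h5, h6⟩ := h4 W hW z hz hz0
    exact ⟨t, ht, div_ne_zero hz0 ((_root_.map_ne_zero _).2 ht), h5, h6⟩
  · rintro ⟨⟨h1, h2, h3⟩, h4⟩
    refine ⟨⟨h1, h2, h3⟩, fun W hW z hz hz0 => ?_⟩
    obtain ⟨t, ht, -, h5, h6⟩ := h4 W hW z hz hz0
    exact ⟨t, ht, h5, h6⟩


section proof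

open Pool.Agent.Y157.PS Pool.Agent.Y157.PV

variable {A k F Ω : Type} [CommRing A] [IsDomain A] [IsDiscreteValuationRing A]
    [Finite (IsLocalRing.ResidueField A)] [Field k] [CharZero k] [Algebra A k] [IsFractionRing A k]
    [Field F] [Field Ω] [Algebra k F] [Algebra F Ω] [Algebra k Ω] [IsScalarTower k F Ω]

theorem LiesOver.mem {V : ValuationSubring (algebraicClosure k Ω)} (hV : LiesOver A k V) (a : A) :
    algebraMap k (algebraicClosure k Ω) (algebraMap A k a) ∈ V := (hV _).2 ⟨a, rfl⟩

theorem LiesOver.non {V : ValuationSubring (algebraicClosure k Ω)} (hV : LiesOver A k V) (a : A)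
    (ha : a ∈ IsLocalRing.maximalIdeal A) :
    algebraMap k (algebraicClosure k Ω) (algebraMap A k a) ∈ V.nonunits := by
  rw [nonunits_iff]
  refine ⟨hV.mem a, ?_⟩
  by_contra hno
  push Not at hno
  obtain ⟨h1, h2⟩ := hno
  rw [← map_inv₀, hV] at h2
  obtain ⟨b, hb⟩ := h2
  have ha0 : algebraMap A k a ≠ 0 := by
    intro h
    rw [h, map_zero] at h1
    exact h1 rfl
  have h3 : a * b = 1 := by
    apply IsFractionRing.injective A k
    rw [map_mul, hb, map_one, mul_inv_cancel₀ ha0]
  exact (IsLocalRing.mem_maximalIdeal a).1 ha (IsUnit.of_mul_eq_one b h3)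

/-- the preimage of a valuation ring -/
def pull {M : Type} [Field M] (W : ValuationSubring M) (e : M ≃+* M) : ValuationSubring M :=
  W.comap (e : M →+* M)

/-- the conjugate of a place by an element of the Galois group -/
theorem PlaceAt.comap {M : IntermediateField F Ω} {f : k[X]} {x : F}
    {t : Splitting k F Ω (algebraicClosure k Ω) M} {V : ValuationSubring (algebraicClosure k Ω)}
    {W : ValuationSubring M} (h : PlaceAt f x t V W)
    (σ : algebraicClosure k Ω ≃ₐ[k] algebraicClosure k Ω) :
    PlaceAt f x t (pull V (σ : algebraicClosure k Ω ≃+* algebraicClosure k Ω))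
      (pull W (t.toHom σ : M ≃+* M)) := by
  have hmem : ∀ z, z ∈ pull W (t.toHom σ : M ≃+* M) ↔ t.toHom σ z ∈ W := fun z => Iff.rfl
  have hmemV : ∀ z, z ∈ pull V (σ : algebraicClosure k Ω ≃+* algebraicClosure k Ω) ↔ σ z ∈ V :=
    fun z => Iff.rfl
  refine ⟨⟨fun c => ?_, ?_⟩, fun ρ hρ z => ?_⟩
  · rw [hmem, (t.toHom σ).commutes]
    exact h.1.1 c
  · refine (comap_non ((t.toHom σ : M ≃ₐ[F] M) : M ≃+* M) W _).2 ?_
    change t.toHom σ _ ∈ _
    rw [(t.toHom σ).commutes]
    exact h.1.2
  · have h1 : Preserves V (σ * ρ * σ⁻¹ : algebraicClosure k Ω ≃ₐ[k] algebraicClosure k Ω) := by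
      intro z
      change σ (ρ (σ.symm z)) ∈ V ↔ z ∈ V
      have h2 := hρ (σ.symm z)
      rw [hmemV, hmemV, σ.apply_symm_apply] at h2
      exact h2
    have h3 := h.2 _ h1 (t.toHom σ z)
    rw [hmem, hmem, ← h3]
    have h4 : t.toHom (σ * ρ * σ⁻¹) (t.toHom σ z) = t.toHom σ (t.toHom ρ z) := by
      rw [map_mul, map_mul]
      change t.toHom σ (t.toHom ρ (t.toHom σ⁻¹ (t.toHom σ z))) = _
      have h5 : t.toHom σ⁻¹ (t.toHom σ z) = z := by
        have h6 : t.toHom σ⁻¹ (t.toHom σ z) = (t.toHom σ⁻¹ * t.toHom σ) z := rfl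
        rw [h6, ← map_mul, inv_mul_cancel, map_one]
        rfl
      rw [h5]
    rw [h4]

theorem LiesOver.comap {V : ValuationSubring (algebraicClosure k Ω)} (h : LiesOver A k V)
    (σ : algebraicClosure k Ω ≃ₐ[k] algebraicClosure k Ω) :
    LiesOver A k (pull V (σ : algebraicClosure k Ω ≃+* algebraicClosure k Ω)) := by
  intro c
  rw [← h c]
  change σ (algebraMap k (algebraicClosure k Ω) c) ∈ V ↔ _
  rw [σ.commutes]

theorem exists_liesOver (A k Ω : Type) [CommRing A] [IsDomain A] [IsDiscreteValuationRing A]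
    [Field k] [Algebra A k] [IsFractionRing A k] [Field Ω] [Algebra k Ω] :
    ∃ V : ValuationSubring (algebraicClosure k Ω), LiesOver A k V := by
  obtain ⟨V, hV⟩ := a_extv k (algebraicClosure k Ω) (ValuationRing.valuation A k).valuationSubring
  refine ⟨V, fun c => ?_⟩
  rw [← ValuationRing.mem_integer_iff A k c]
  change c ∈ V.comap (algebraMap k (algebraicClosure k Ω)) ↔ _
  rw [hV]
  exact Iff.rfl

/-- the value of a polynomial at a point where `x` has the value `e` -/
theorem poly_nonunit {M : IntermediateField F Ω} (W : ValuationSubring M)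
    (hW : ∀ c : k, algebraMap F M (algebraMap k F c) ∈ W) (P : k[X]) (x : F)
    (e : algebraicClosure k Ω) (he : aeval e P = 0) (eM : M) (heM : (eM : Ω) = (e : Ω))
    (hx : algebraMap F M x - eM ∈ W.nonunits) : algebraMap F M (aeval x P) ∈ W.nonunits := by
  have heW : eM ∈ W := const_mem_N M W hW e eM heM
  have hxW : algebraMap F M x ∈ W := by
    have h1 := add_mem (nonunits_iff.1 hx).1 heW
    rwa [sub_add_cancel] at h1
  let i : k →+* W := ((algebraMap F M).comp (algebraMap k F)).codRestrict W.toSubring hW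
  obtain ⟨q, hq⟩ := sub_dvd_eval_sub (⟨_, hxW⟩ : W) (⟨_, heW⟩ : W) (P.map i)
  have h1 : W.subtype ((P.map i).eval (⟨_, hxW⟩ : W)) = algebraMap F M (aeval x P) := by
    rw [eval_map, hom_eval₂, aeval_def, hom_eval₂]
    rfl
  have h2 : W.subtype ((P.map i).eval (⟨_, heW⟩ : W)) = 0 := by
    rw [eval_map, hom_eval₂]
    apply (algebraMap M Ω).injective
    rw [hom_eval₂, map_zero]
    have h3 : (algebraMap M Ω).comp (W.subtype.comp i) =
        (algebraMap (algebraicClosure k Ω) Ω).comp (algebraMap k (algebraicClosure k Ω)) := by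
      ext a
      exact (IsScalarTower.algebraMap_apply k F Ω a).symm
    have h4 : algebraMap M Ω (W.subtype (⟨_, heW⟩ : W)) = algebraMap (algebraicClosure k Ω) Ω e := heM
    rw [h3, h4, ← hom_eval₂]
    have h5 : P.eval₂ (algebraMap k (algebraicClosure k Ω)) e = 0 := he
    rw [h5, map_zero]
  have h3 := congrArg W.subtype hq
  rw [map_sub, h1, h2, sub_zero, map_mul] at h3
  rw [h3, mul_comm]
  exact non_mul q.2 hx

variable [IsAlgClosed Ω] [Algebra.IsAlgebraic F Ω]

theorem main {ℓ : ℕ} [Fact ℓ.Prime] (hℓ : IsUnit (ℓ : A)) (f : A[X]) (hlc : IsUnit f.leadingCoeff)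
    (hs : (f.map (IsLocalRing.residue A)).Separable) (hdvd : ℓ ∣ f.natDegree)
    (h3 : 3 ≤ f.natDegree) (ϖ : A) (hϖ : Irreducible ϖ) (d : k) (m : ℤ) (hm : ¬ (ℓ : ℤ) ∣ m)
    (t : A) (ht : IsUnit t) (hd : d = algebraMap A k t * algebraMap A k ϖ ^ m)
    (x y : F) (hx : Transcendental k x)
    (hxy : algebraMap k F d * y ^ ℓ = aeval x (f.map (algebraMap A k)))
    (hF : IntermediateField.adjoin k {x, y} = (⊤ : IntermediateField k F)) :
    SectionsAndPrimes A ℓ (f.map (algebraMap A k)) d x (geomPro ℓ k F Ω) := by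
  classical
  have hℓp : ℓ.Prime := Fact.out
  have hac : IsAlgClosure k (algebraicClosure k Ω) := inferInstance
  have hkb : IsAlgClosed (algebraicClosure k Ω) := hac.1
  have hAk : Function.Injective (algebraMap A k) := IsFractionRing.injective A k
  have hd0 : d ≠ 0 := by
    rw [hd]
    refine mul_ne_zero ?_ (zpow_ne_zero _ ?_)
    · rw [Ne, map_eq_zero_iff _ hAk]
      exact ht.ne_zero
    · rw [Ne, map_eq_zero_iff _ hAk]
      exact hϖ.ne_zero
  have hFx := alg_of_eqn hℓp.pos (f.map (algebraMap A k)) d hd0 x y hxy hF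
  obtain ⟨fk, hfk⟩ : ∃ fk : k[X], fk = f.map (algebraMap A k) := ⟨_, rfl⟩
  have hlcA : algebraMap A k f.leadingCoeff ≠ 0 := by
    rw [Ne, map_eq_zero_iff _ hAk]
    exact hlc.ne_zero
  have hlck : (f.map (algebraMap A k)).leadingCoeff = algebraMap A k f.leadingCoeff :=
    leadingCoeff_map_of_leadingCoeff_ne_zero _ hlcA
  have hdeg : (f.map (algebraMap A k)).natDegree = f.natDegree :=
    natDegree_map_of_leadingCoeff_ne_zero _ hlcA
  obtain ⟨V₀, hV₀⟩ : ∃ V : ValuationSubring (algebraicClosure k Ω), LiesOver A k V :=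
    exists_liesOver A k Ω
  obtain ⟨lam, hlam⟩ : ∃ lam : algebraicClosure k Ω, lam ^ ℓ =
      algebraMap k (algebraicClosure k Ω) (algebraMap A k f.leadingCoeff) :=
    IsAlgClosed.exists_pow_nat_eq _ hℓp.pos
  have hlam0 : lam ≠ 0 := by
    rintro rfl
    rw [zero_pow hℓp.ne_zero] at hlam
    exact (_root_.map_ne_zero _).2 hlcA hlam.symm
  have hdat : ∀ (V : ValuationSubring (algebraicClosure k Ω)) (hV : LiesOver A k V)
      (δ : algebraicClosure k Ω), δ ^ ℓ = algebraMap k (algebraicClosure k Ω)
        (d / (f.map (algebraMap A k)).leadingCoeff) → _ := fun V hV δ hδ =>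
    data (A := A) V hV.mem hV.non hℓ f hlc hs ϖ hϖ d m hm t ht hd δ hδ
  obtain ⟨δ₀, hδ₀⟩ : ∃ δ : algebraicClosure k Ω, δ ^ ℓ = algebraMap k (algebraicClosure k Ω)
        (d / (f.map (algebraMap A k)).leadingCoeff) :=
    IsAlgClosed.exists_pow_nat_eq _ hℓp.pos
  have hsep : (f.map (algebraMap A k)).Separable := (hdat V₀ hV₀ δ₀ hδ₀).1
  have hcompat : ∀ (s : Splitting k F Ω (algebraicClosure k Ω) (geomPro ℓ k F Ω)) σ c,
      s.toHom σ (emb ℓ k F Ω c) = emb ℓ k F Ω (σ c) := fun s σ c =>
    Subtype.ext (s.compat σ c (emb ℓ k F Ω c) rfl)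
  have hext : ∀ s s' : Splitting k F Ω (algebraicClosure k Ω) (geomPro ℓ k F Ω),
      s.toHom = s'.toHom → s = s' := by
    rintro ⟨s, _, _⟩ ⟨s', _, _⟩ h
    obtain rfl : s = s' := h
    rfl
  -- the root of `d` and the root of `d / lc`
  have hτlam : ∀ (V : ValuationSubring (algebraicClosure k Ω)) (hV : LiesOver A k V)
      (τ : algebraicClosure k Ω ≃ₐ[k] algebraicClosure k Ω), Inertial V τ → τ lam = lam := by
    intro V hV τ hτ
    have hUl : IsU V (ℓ : algebraicClosure k Ω) := by
      have := unit_isU V hV.mem (ℓ : A) hℓ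
      simpa using this
    have hUlam : IsU V lam := by
      refine isU_of_pow hℓp.pos ?_
      rw [hlam]
      exact unit_isU V hV.mem _ hlc
    have h1 : (τ lam / lam) ^ ℓ = 1 := by
      rw [div_pow, ← map_pow, hlam, τ.commutes, div_self]
      exact (_root_.map_ne_zero _).2 hlcA
    have h2 : τ lam / lam - 1 ∈ V.nonunits := by
      have h4 := hτ.2 lam hUlam.2.1
      have h5 : τ lam / lam - 1 = lam⁻¹ * (τ lam - lam) := by
        field_simp
      rw [h5]
      exact non_mul hUlam.2.2 h4
    have h6 := root_eq hUl hℓp.pos h1 (one_pow ℓ) h2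
    rwa [div_eq_one_iff_eq hlam0] at h6
  have hplace : ∀ (s : Splitting k F Ω (algebraicClosure k Ω) (geomPro ℓ k F Ω))
      (V : ValuationSubring (algebraicClosure k Ω)), LiesOver A k V →
      ∃ W : ValuationSubring (geomPro ℓ k F Ω), PlaceAt (f.map (algebraMap A k)) x s V W ∧
        ((∃ e : algebraicClosure k Ω, aeval e (f.map (algebraMap A k)) = 0 ∧ HasValue W x e ∧
          ∀ σ : algebraicClosure k Ω ≃ₐ[k] algebraicClosure k Ω, Preserves V σ → σ e = e) ∧
        (∀ z : F, algebraMap F (geomPro ℓ k F Ω) z ∈ W → ∃ c : algebraicClosure k Ω,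
          HasValue W z c ∧
          ∀ σ : algebraicClosure k Ω ≃ₐ[k] algebraicClosure k Ω, Preserves V σ → σ c = c)) ∧
        ∀ W' : ValuationSubring (geomPro ℓ k F Ω),
          PlaceAt (f.map (algebraMap A k)) x s V W' → W' = W := by
    intro s V hV
    obtain ⟨W, ⟨⟨h1, ⟨e, he, hefix, w, hw, hwe⟩, h2⟩, h4⟩, hun⟩ :=
      numM V hV.mem hV.non hℓ f hlc hs hdvd h3 ϖ hϖ d m hm t ht hd x y hx hxy hF
        (geomPro ℓ k F Ω) le_rfl s.toHom s.cont (fun σ c z hz => s.compat σ c z hz)
    have hnon : algebraMap F (geomPro ℓ k F Ω) (aeval x (f.map (algebraMap A k))) ∈ W.nonunits := by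
      refine poly_nonunit W h1 _ x e he (emb ℓ k F Ω e) rfl ?_
      have h5 : algebraMap F (geomPro ℓ k F Ω) x - emb ℓ k F Ω e = w := Subtype.ext hwe.symm
      rw [h5]
      exact hw
    refine ⟨W, ⟨⟨h1, hnon⟩, fun σ hσ z => h4 σ hσ z z.2⟩, ⟨⟨e, he, ⟨w, hw, hwe⟩, hefix⟩, fun z hz => ?_⟩,
      fun W' hW' => ?_⟩
    · obtain ⟨c, hc, w', hw', hwc⟩ := h2 z hz
      exact ⟨c, ⟨w', hw', hwc⟩, hc⟩
    · ext z
      exact hun W' hW'.1.1 hW'.1.2 (fun σ hσ z _ => hW'.2 σ hσ z) z z.2
  have hplace' : ∀ (s : Splitting k F Ω (algebraicClosure k Ω) (geomPro ℓ k F Ω))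
      (V : ValuationSubring (algebraicClosure k Ω)), LiesOver A k V →
      ∀ W W' : ValuationSubring (geomPro ℓ k F Ω), PlaceAt (f.map (algebraMap A k)) x s V W →
        PlaceAt (f.map (algebraMap A k)) x s V W' → W = W' := by
    intro s V hV W W' h1 h2
    obtain ⟨W₁, -, -, hun⟩ := hplace s V hV
    rw [hun W h1, hun W' h2]
  have hsingle : ∀ (s : Splitting k F Ω (algebraicClosure k Ω) (geomPro ℓ k F Ω))
      (V : ValuationSubring (algebraicClosure k Ω)), LiesOver A k V →
      ∀ (τ : algebraicClosure k Ω ≃ₐ[k] algebraicClosure k Ω) (δ : algebraicClosure k Ω),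
      Inertial V τ → δ ^ ℓ = algebraMap k (algebraicClosure k Ω) d → τ δ ≠ δ →
      ∀ W W' : ValuationSubring (geomPro ℓ k F Ω), AboveBranchPoint (f.map (algebraMap A k)) x W →
        AboveBranchPoint (f.map (algebraMap A k)) x W' → Preserves W (s.toHom τ) →
        Preserves W' (s.toHom τ) → W = W' := by
    intro s V hV τ δ₁ hτ hδ₁ hτδ₁ W W' hW hW' hp hp'
    obtain ⟨δ, hδdef⟩ : ∃ δ, δ = δ₁ / lam := ⟨_, rfl⟩
    have hδ : δ ^ ℓ = algebraMap k (algebraicClosure k Ω)
        (d / (f.map (algebraMap A k)).leadingCoeff) := by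
      rw [hδdef, div_pow, hδ₁, hlam, hlck, map_div₀]
    have hδ0 : δ ≠ 0 := by
      rintro rfl
      rw [zero_pow hℓp.ne_zero] at hδ
      exact (_root_.map_ne_zero _).2 (div_ne_zero hd0 (by rw [hlck]; exact hlcA)) hδ.symm
    have hτδ : τ δ ≠ δ := by
      rw [hδdef, map_div₀, hτlam V hV τ hτ]
      intro h
      exact hτδ₁ ((div_left_inj' hlam0).1 h)
    obtain ⟨B, hB, ⟨md⟩⟩ := model ℓ k F Ω (f.map (algebraMap A k)) hsep (by rw [hdeg]; exact hdvd)
      (by rw [hdeg]; exact h3) d hd0 x y hx hxy hF δ hδ
    obtain ⟨-, hBase, hGood⟩ := hdat V hV δ hδ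
    obtain ⟨hc, e, he, hWe⟩ := branch _ hsep x hx W hW.1 hW.2
    obtain ⟨hc', e', he', hWe'⟩ := branch _ hsep x hx W' hW'.1 hW'.2
    let _ : Algebra A (algebraicClosure k Ω) :=
      ((algebraMap k (algebraicClosure k Ω)).comp (algebraMap A k)).toAlgebra
    have hst : IsScalarTower A k (algebraicClosure k Ω) :=
      IsScalarTower.of_algebraMap_eq (fun _ => rfl)
    exact uniq md V hV.mem hV.non ϖ m hBase hδ0 (hGood B hB) s.toHom
      (fun z => cont_fix s.toHom s.cont z) (hcompat s) τ hτ hτδ W W' hc hc' ((hB e).2 he)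
      ((hB e').2 he') hWe hWe' hp hp'
  refine ⟨?_, ?_, ?_, ?_, ?_, ?_, ?_, ?_⟩
  · intro U hU
    exact (a_ind ℓ k F Ω x hx hFx U hU).1
  · intro N hN s
    obtain ⟨T, hTc, hT⟩ := a_ind2 ℓ k F Ω x hx hFx N hN _ s.toHom s.cont
    refine ⟨⟨T, hTc, fun σ c z hz => ?_⟩, fun σ z w hw => hT σ z w hw, fun t' ht' => ?_⟩
    · have h1 : (z : Ω) ∈ N := hN z.2
      change (T σ z : Ω) = _
      rw [hT σ ⟨(z : Ω), h1⟩ z rfl]
      exact s.compat σ c _ hz
    · apply hext
      ext σ w
      have h1 : (w : Ω) ∈ N := hN w.2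
      exact (ht' σ ⟨(w : Ω), h1⟩ w rfl).trans (hT σ ⟨(w : Ω), h1⟩ w rfl).symm
  · intro s V hV
    obtain ⟨W, h1, -, hun⟩ := hplace s V hV
    exact ⟨W, h1, hun⟩
  · intro s V W hV hW
    obtain ⟨W₁, -, h2, hun⟩ := hplace s V hV
    rw [hun W hW]
    exact h2
  · intro s V W hV hW τ δ hτ hδ hτδ W' hW' hp
    exact hsingle s V hV τ δ hτ hδ hτδ W' W hW' hW.1 hp (hW.2 τ hτ.1)
  · intro V hV
    obtain ⟨-, hBase, -⟩ := hdat V hV δ₀ hδ₀
    let _ : Algebra A (algebraicClosure k Ω) :=
      ((algebraMap k (algebraicClosure k Ω)).comp (algebraMap A k)).toAlgebra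
    have hst : IsScalarTower A k (algebraicClosure k Ω) :=
      IsScalarTower.of_algebraMap_eq (fun _ => rfl)
    obtain ⟨-, τ, hτ, hτδ, -⟩ := a_tau ℓ A k (algebraicClosure k Ω) V ϖ δ₀ m hBase
    refine ⟨τ, δ₀ * lam, hτ, ?_, ?_⟩
    · rw [mul_pow, hδ₀, hlam, hlck, ← map_mul, div_mul_cancel₀ _ hlcA]
    · rw [map_mul, hτlam V hV τ hτ]
      intro h
      exact hτδ (mul_right_cancel₀ hlam0 h)
  · intro s s' hag
    have hsame : ∀ (V : ValuationSubring (algebraicClosure k Ω)), LiesOver A k V →
        ∀ W, PlaceAt (f.map (algebraMap A k)) x s V W →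
          PlaceAt (f.map (algebraMap A k)) x s' V W := by
      intro V hV W hW
      obtain ⟨τ, δ, hτ, hδ, hτδ, hss⟩ := hag V hV
      obtain ⟨W', h1, -, -⟩ := hplace s' V hV
      have h2 : W = W' := hsingle s' V hV τ δ hτ hδ hτδ W W' hW.1 h1.1
        (by rw [← hss]; exact hW.2 τ hτ.1) (h1.2 τ hτ.1)
      rw [h2]
      exact h1
    apply hext
    ext σ z
    obtain ⟨W, hW, -, -⟩ := hplace s V₀ hV₀
    have hW' := hsame V₀ hV₀ W hW
    have h1 := hW.comap σ
    have h2 := hW'.comap σ
    have h4 := hplace' s' _ (hV₀.comap σ) _ _ (hsame _ (hV₀.comap σ) _ h1) h2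
    have h5 : ∀ z, s.toHom σ z ∈ W ↔ s'.toHom σ z ∈ W := by
      intro z
      change z ∈ pull W (s.toHom σ : geomPro ℓ k F Ω ≃+* geomPro ℓ k F Ω) ↔ _
      rw [h4]
      rfl
    obtain ⟨B, hB, ⟨md⟩⟩ := model ℓ k F Ω (f.map (algebraMap A k)) hsep (by rw [hdeg]; exact hdvd)
      (by rw [hdeg]; exact h3) d hd0 x y hx hxy hF δ₀ hδ₀
    obtain ⟨hc, e, he, hWe⟩ := branch _ hsep x hx W hW.1.1 hW.1.2
    have hinv : ∀ w, s'.toHom σ ((s'.toHom σ)⁻¹ w) = w := fun w =>
      (s'.toHom σ).apply_symm_apply w
    have h6 : s.toHom σ * (s'.toHom σ)⁻¹ = 1 := by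
      refine rigid md _ (fun c => ?_) W hc ((hB e).2 he) hWe (fun w => ?_)
      · have h7 : (s'.toHom σ)⁻¹ (emb ℓ k F Ω c) = emb ℓ k F Ω (σ⁻¹ c) := by
          apply (s'.toHom σ).injective
          rw [hinv, hcompat]
          congr 1
          exact (σ.apply_symm_apply c).symm
        change s.toHom σ ((s'.toHom σ)⁻¹ _) = _
        rw [h7, hcompat]
        congr 1
        exact σ.apply_symm_apply c
      · change s.toHom σ ((s'.toHom σ)⁻¹ w) ∈ W ↔ _
        rw [h5, hinv]
    rw [mul_inv_eq_one] at h6
    rw [h6]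
  · intro s W
    constructor
    · intro h
      have hpres : ∀ σ : algebraicClosure k Ω ≃ₐ[k] algebraicClosure k Ω,
          Preserves W (s.toHom σ) := by
        intro σ z
        have h1 := hplace' s _ (hV₀.comap σ) _ _ ((h V₀ hV₀).comap σ) (h _ (hV₀.comap σ))
        change z ∈ pull W (s.toHom σ : geomPro ℓ k F Ω ≃+* geomPro ℓ k F Ω) ↔ _
        rw [h1]
      have hab := (h V₀ hV₀).1
      have : Normal k (algebraicClosure k Ω) := IsAlgClosure.normal k _
      have hGal : IsGalois k (algebraicClosure k Ω) := ⟨⟩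
      have hrat : ∀ c : algebraicClosure k Ω, (∀ σ : algebraicClosure k Ω ≃ₐ[k]
          algebraicClosure k Ω, σ c = c) → ∃ c' : k,
            algebraMap k (algebraicClosure k Ω) c' = c := by
        intro c hc
        have h5 := (InfiniteGalois.mem_bot_iff_fixed c).2 hc
        exact IntermediateField.mem_bot.1 h5
      obtain ⟨W₁, hW₁, ⟨⟨e, he, ⟨w, hw, hwe⟩, -⟩, h2⟩, -⟩ := hplace s V₀ hV₀
      obtain rfl : W = W₁ := hplace' s V₀ hV₀ _ _ (h V₀ hV₀) hW₁
      have hval : ∀ (z : F) (c : algebraicClosure k Ω) (w : geomPro ℓ k F Ω), w ∈ W.nonunits →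
          (w : Ω) = algebraMap F Ω z - c → ∃ c' : k, algebraMap k (algebraicClosure k Ω) c' = c ∧
            algebraMap F (geomPro ℓ k F Ω) (z - algebraMap k F c') ∈ W.nonunits := by
        intro z c w hw hwc
        obtain ⟨c', rfl⟩ := hrat c fun σ => res_fixed _ W hab.1 σ (s.toHom σ) (hpres σ)
          (fun c z hz => s.compat σ c z hz) z c w hw hwc
        refine ⟨c', rfl, ?_⟩
        have h5 : algebraMap F (geomPro ℓ k F Ω) (z - algebraMap k F c') = w := by
          apply Subtype.ext
          rw [hwc]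
          change algebraMap F Ω (z - algebraMap k F c') = _
          rw [map_sub, ← IsScalarTower.algebraMap_apply]
          rfl
        rw [h5]
        exact hw
      refine ⟨⟨hab, hpres⟩, ?_, fun z hz => ?_⟩
      · obtain ⟨e', rfl, h6⟩ := hval x e w hw hwe
        refine ⟨e', ?_, h6⟩
        rw [aeval_algebraMap_apply] at he
        have h7 := (_root_.map_eq_zero _).1 he
        rwa [aeval_def, Algebra.algebraMap_self, eval₂_id] at h7
      · obtain ⟨c, ⟨w', hw', hwc⟩, -⟩ := h2 z hz
        obtain ⟨c', -, h6⟩ := hval z c w' hw' hwc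
        exact ⟨c', h6⟩
    · rintro ⟨⟨h1, h2⟩, -, -⟩ V hV
      exact ⟨h1, fun σ _ => h2 σ⟩

end proof

/-- Let `A` be a discrete valuation ring with finite residue field and with field of fractions `k` of
characteristic zero (for instance the local ring of a number field at a finite place, or the ring of
integers of a `p`-adic field), `ℓ` a prime number invertible in `A`, `f ∈ A[x]` a polynomial with
invertible leading coefficient and separable reduction, whose degree is at least 3 and divisible by
`ℓ`, and `d ∈ k` an element whose valuation is not divisible by `ℓ`.  Let `F` be the function field of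
the curve `d y^ℓ = f(x)` over `k` and `Ω` an algebraic closure of `F`.  Then the sections of
`Gal(M/F) → G_k`, `M = proEllField ℓ k F Ω`, have the properties listed in `SectionsAndPrimes`. -/
theorem result (A k : Type) [CommRing A] [IsDomain A] [IsDiscreteValuationRing A]
    [Finite (IsLocalRing.ResidueField A)] [Field k] [CharZero k] [Algebra A k] [IsFractionRing A k]
    (ℓ : ℕ) [Fact ℓ.Prime] (f : A[X]) (d : k) (hℓ : IsUnit (ℓ : A)) (hf : GoodPolynomial ℓ f)
    (hd : ValuationPrimeTo A ℓ d)
    (F Ω : Type) [Field F] [Field Ω] [Algebra k F] [Algebra F Ω] [Algebra k Ω]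
    [IsScalarTower k F Ω] [IsAlgClosure F Ω] (x y : F)
    (hF : IsFunctionField ℓ (f.map (algebraMap A k)) d x y) :
    SectionsAndPrimes A ℓ (f.map (algebraMap A k)) d x (proEllField ℓ k F Ω) := by
  obtain ⟨hlc, hs, hdvd, h3⟩ := hf
  obtain ⟨ϖ, t, m, hϖ, ht, hm, hd⟩ := hd
  obtain ⟨hx, hxy, hF⟩ := hF
  have hcl : IsAlgClosed Ω := IsAlgClosure.isAlgClosed F
  have halg : Algebra.IsAlgebraic F Ω := IsAlgClosure.isAlgebraic
  rw [proEll_eq]
  exact main hℓ f hlc hs hdvd h3 ϖ hϖ d m hm t ht hd x y hx hxy hF

end Pool.Agent.Results.MP_896029_ag.PlacesAtOnePrime
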