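import Mathlib
import Pool.Agent.Y488.TM.SecMain
import Pool.Agent.Y488.TM.Arg
import Pool.Agent.Y488.TM.Arl
import Pool.Agent.Y488.TM.RedC

/-!
# The sections of 100% of the quadratic twists have modulo 2 the type of one rational branch point

Let `f k ∈ ℤ[x]` be irreducible over `ℚ`, pairwise non-associated, of even total degree, at least
four of them of odd degree and at least one of them linear, the linear factors in general position.
Then for all squarefree `d`, `|d| ≤ X`, with at most `C X (log X)^(-δ)` exceptions, every section of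
the fundamental group of `d y² = ∏ k, f k (x)` (and of the curve with any set of closed points
removed, and of all curves that dominate it) has modulo 2 the type of one and the same rational branch
point `P i`, the zero of a linear factor: for every product `∏ k ∈ T, f k` of even degree with
`i ∉ T` the square root of the quotient of it by its value at `P i` is fixed by the section, as for
the sections given by the decomposition groups of the valuations above `P i`.

The twists without linear factors, which have no sections, are considered in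
`MP_c1dca2_ag/TwistsWithMixedFactors.lean`.  The case where all factors are linear is in the starting
library (`MP_896029_ag/BranchPoints.lean`).  The fundamental group is described through valuations, as
there.
-/

open Polynomial

namespace Pool.Agent.Results.MP_896029_ag.SectionsNearBranchPoint

universe u v w

section definitions

variable (k : Type u) (F : Type v) (Ω : Type w) [Field k] [Field F] [Field Ω] [Algebra k F]
  [Algebra F Ω] [Algebra k Ω]

/-- The inertia group of the valuation ring `W` of `Ω`, as a subgroup of `Gal(Ω/F)`: the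
automorphisms of `Ω` over `F` that map `W` onto itself and act as the identity on its residue
field. -/
noncomputable def inertia (W : ValuationSubring Ω) : Subgroup (Ω ≃ₐ[F] Ω) :=
  (W.inertiaSubgroup F).map (W.decompositionSubgroup F).subtype

/-- `F_U`, for a set `U` of valuation rings of `F`: the elements of `Ω` fixed by the inertia groups
of all valuation rings `W` of `Ω` with `W ∩ F ∈ U`.  If `Ω` is an algebraic closure of a field `F`
of characteristic zero, this is the maximal extension of `F` in `Ω` unramified over `U`. -/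
noncomputable def unramified (U : Set (ValuationSubring F)) : IntermediateField F Ω :=
  ⨅ W : {W : ValuationSubring Ω // W.comap (algebraMap F Ω) ∈ U},
    IntermediateField.fixedField (inertia F Ω W.1)

/-- The map `τ : M → M` acts as `σ : K → K` on the elements that the fields `K` and `M` have in
common when they are regarded as subfields of `Ω` through `i` and `j`. -/
def ActsAs {K M Ω : Type*} [Field K] [Field M] [Field Ω] (i : K →+* Ω) (j : M →+* Ω) (σ : K → K)
    (τ : M → M) : Prop :=
  ∀ c z, j z = i c → j (τ z) = i (σ c)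

/-- Let `k ⊆ K ⊆ Ω` and `F ⊆ M ⊆ Ω` be fields.  A splitting of `Gal(M/F) → Gal(K/k)`: a continuous
homomorphism `s` from `Gal(K/k)` to `Gal(M/F)` such that `s(σ)` acts as `σ` on the elements of
`K ∩ M`. -/
structure Splitting (K M : Type*) [Field K] [Field M] [Algebra k K] [Algebra F M] [Algebra K Ω]
    [Algebra M Ω] where
  /-- the homomorphism `Gal(K/k) → Gal(M/F)` -/
  toHom : (K ≃ₐ[k] K) →* (M ≃ₐ[F] M)
  cont : Continuous toHom
  compat : ∀ σ : K ≃ₐ[k] K, ActsAs (algebraMap K Ω) (algebraMap M Ω) σ (toHom σ)

/-- The sections of `π₁(U) = Gal(F_U/F) → G_k`: the continuous homomorphisms `s` from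
`G_k = Gal(k̄/k)` to `Gal(F_U/F)`, where `k̄` is the algebraic closure of `k` in `Ω`, such that
`s(σ)` acts as `σ` on the elements of `k̄`. -/
def GaloisSection (U : Set (ValuationSubring F)) : Type w :=
  Splitting k F Ω (algebraicClosure k Ω) (unramified F Ω U)

variable {k F Ω}

/-- The section `s` fixes the element `γ` of `F_U`. -/
def Fixes {U : Set (ValuationSubring F)} (s : GaloisSection k F Ω U) (γ : unramified F Ω U) :
    Prop :=
  ∀ σ, s.toHom σ γ = γ

end definitions

/-- a section in the sense of `Pool.Agent.W620.SC` -/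
def toG {k : Type u} {F : Type v} {Ω : Type w} [Field k] [Field F] [Field Ω] [Algebra k F]
    [Algebra F Ω] [Algebra k Ω] [IsScalarTower k F Ω] {U : Set (ValuationSubring F)}
    (s : GaloisSection k F Ω U) : Pool.Agent.W620.SC.GSection k F Ω U :=
  ⟨s.toHom, s.cont, s.compat⟩

lemma toG_fixes {k : Type u} {F : Type v} {Ω : Type w} [Field k] [Field F] [Field Ω] [Algebra k F]
    [Algebra F Ω] [Algebra k Ω] [IsScalarTower k F Ω] {U : Set (ValuationSubring F)}
    (s : GaloisSection k F Ω U) (γ : unramified F Ω U) (h : ∀ σ, (toG s).toHom σ γ = γ) :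
    Fixes s γ :=
  h

section K

variable {K : Type} [Fintype K] [DecidableEq K]

/-- the indices of the factors of odd degree -/
def Od (f : K → ℤ[X]) : Finset K := Finset.univ.filter (fun k => Odd (f k).natDegree)

/-- the indices of the linear factors -/
def Ln (f : K → ℤ[X]) : Finset K := Finset.univ.filter (fun k => (f k).natDegree = 1)

/-- the value `∑ m, c m * (-b) ^ m * a ^ (deg - m)` of the homogenisation of `f k = ∑ m, c m * x ^ m`
at the zero `(-b, a)` of the linear factor `f i = a x + b` -/
noncomputable def val (f : K → ℤ[X]) (i k : K) : ℤ :=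
  ∑ m ∈ Finset.range ((f k).natDegree + 1),
    ((f k).coeff m : ℤ) * (-(f i).coeff 0) ^ m * (f i).coeff 1 ^ ((f k).natDegree - m)

/-- the factors are irreducible over `ℚ`, pairwise non-associated, of even total degree, and at
least four of them have odd degree -/
def Factors (f : K → ℤ[X]) : Prop :=
  (∀ k, Irreducible ((f k).map (Int.castRingHom ℚ))) ∧
  (∀ k l, k ≠ l →
    ¬ Associated ((f k).map (Int.castRingHom ℚ)) ((f l).map (Int.castRingHom ℚ))) ∧
  Even (∑ k, (f k).natDegree) ∧ 4 ≤ (Od f).card

/-- the condition on the linear factors: for any two linear factors `i ≠ k` there is a product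
`∏ l ∈ T, f l` of even degree, `i, k ∉ T`, whose values at the zeros of `f i`, `f k` are not in the
same square class; if there are exactly four factors of odd degree, and these are linear, then there
are two of them, `i` and `k`, and a product of factors of even degree with this property -/
def General (f : K → ℤ[X]) : Prop :=
  (∀ i ∈ Ln f, ∀ k ∈ Ln f, i ≠ k → ∃ T : Finset K, i ∉ T ∧ k ∉ T ∧ Even (T ∩ Od f).card ∧
    ¬ IsSquare (∏ l ∈ T, (val f i l * val f k l))) ∧
  ((Od f).card = 4 → Od f ⊆ Ln f → ∃ i ∈ Od f, ∃ k ∈ Od f, ∃ T : Finset K,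
    Disjoint T (Od f) ∧ ¬ IsSquare (∏ l ∈ T, (val f i l * val f k l)))

/-- The section `s` has modulo 2 the type of the zero of the linear factor `f i`: for every set `T`
of factors of even total degree with `i ∉ T` the product of `∏ k ∈ T, f k (x)` and of its value at
the zero has a square root in `F_U` which is fixed by `s`. -/
def TypeOf (f : K → ℤ[X]) {F : Type v} {Ω : Type w} [Field F] [Field Ω] [Algebra ℚ F] [Algebra F Ω]
    [Algebra ℚ Ω] {U : Set (ValuationSubring F)} (s : GaloisSection ℚ F Ω U) (x : F) (i : K) :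
    Prop :=
  ∀ T : Finset K, i ∉ T → Even (∑ k ∈ T, (f k).natDegree) → ∃ γ : unramified F Ω U,
    Fixes s γ ∧ (γ : Ω) ^ 2 = algebraMap F Ω (∏ k ∈ T, (aeval x (f k) * (val f i k : F)))

/-- For a field `F` over `ℚ` with a point `(x, y)`, `x` transcendental, of the curve
`d y² = ∏ k, f k (x)`, some section does not have the type of the zero of a linear factor. -/
def OtherSection (f : K → ℤ[X]) (d : ℤ) : Prop :=
  ∃ (F : Type v) (Ω : Type w) (_ : Field F) (_ : Field Ω) (_ : Algebra ℚ F) (_ : Algebra F Ω)
    (_ : Algebra ℚ Ω) (_ : IsScalarTower ℚ F Ω) (_ : IsAlgClosure F Ω)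
    (U : Set (ValuationSubring F)) (s : GaloisSection ℚ F Ω U) (x y : F),
    (∀ O ∈ U, ∀ c : ℚ, algebraMap ℚ F c ∈ O) ∧ Transcendental ℚ x ∧
    (d : F) * y ^ 2 = ∏ k, aeval x (f k) ∧ ∀ i, (f i).natDegree = 1 → ¬ TypeOf f s x i

end K

lemma val_eq {K : Type} (f : K → ℤ[X]) (i k : K) : val f i k = Pool.Agent.Y488.TM.val f i k := by
  unfold val Pool.Agent.Y488.TM.val Pool.Agent.W262.TW.hom
  simp

theorem result (K : Type) [Fintype K] [DecidableEq K] (f : K → ℤ[X]) (hF : Factors f)
    (hG : General f) (_hL : (Ln f).Nonempty) :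
    ∃ δ : ℝ, 0 < δ ∧ ∃ C : ℝ, ∀ X : ℕ, 3 ≤ X →
      ({d : ℤ | d.natAbs ≤ X ∧ Squarefree d ∧ OtherSection.{v, w} f d}.ncard : ℝ) ≤
        C * X * (Real.log X) ^ (-δ) := by
  have hH : Pool.Agent.Y488.TM.Hyp f := by
    refine ⟨hF.1, hF.2.1, hF.2.2.1, hF.2.2.2, fun i hi k hk hik => ?_, fun h4 hs => ?_⟩
    · obtain ⟨T, h1, h2, h3, h5⟩ := hG.1 i hi k hk hik
      refine ⟨T, h1, h2, h3, ?_⟩
      simp only [val_eq] at h5
      exact h5
    · obtain ⟨i, hi, k, hk, T, h1, h2⟩ := hG.2 h4 hs
      refine ⟨i, hi, k, hk, T, h1, ?_⟩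
      simp only [val_eq] at h2
      exact h2
  obtain ⟨δ, hδ, C, hC⟩ := Pool.Agent.Y488.TM.sec_main.{v, w} Pool.Agent.Y488.TM.redc
    Pool.Agent.Y488.TM.arg Pool.Agent.Y488.TM.arl f hH
  refine ⟨δ, hδ, C, fun X hX => le_trans ?_ (hC X hX)⟩
  refine Nat.cast_le.2 (Set.ncard_le_ncard ?_ (Pool.Agent.TH213.SP.fin_le X _))
  rintro d ⟨hd1, hd2, F, Ω, i1, i2, i3, i4, i5, i6, i7, U, s, x, y, h1, h2, h3, h4⟩
  refine ⟨hd1, hd2, F, Ω, i1, i2, i3, i4, i5, i6, IsAlgClosure.isAlgClosed F,
    IsAlgClosure.isAlgebraic, U, toG s, x, y, h1, h2, h3,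
    fun i hi hAt => h4 i hi ?_⟩
  intro T hT hev
  obtain ⟨γ, h5, h6⟩ := hAt T hT hev
  refine ⟨γ, toG_fixes s γ h5, ?_⟩
  simp only [val_eq]
  exact h6

end Pool.Agent.Results.MP_896029_ag.SectionsNearBranchPoint
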