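import Pool.Agent.Y213.CT.All

/-!
# Sections of fundamental groups over all extensions of bounded degree: valuative form

`E : y² = x³ + a x + b` is an elliptic curve over a number field `K` (any rank, with or without
complex multiplication) whose Tate-Shafarevich group over `K` is killed by some `M₀ ≥ 1` (nothing is
assumed over larger fields), and `X` is a closed subset of `E ^ r × ℙ ^ n` over `K`, a family of
closed subsets `X_y ⊆ E ^ r` with parameter space `ℙ ^ n`. Suppose that for all `1 ≤ m ≤ M` and all
complex points `S` of `E ^ r` the `y` such that `S` is a sum of `m` points of `X_y` lie on a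
hypersurface of degree `k`. Then for all points `y` in `ℙ ^ n (K)` of height at most `B` outside
of `O(B ^ ε)` hypersurfaces of degree `k` and ALL extensions `F` of `K` of degree at most `M`, no
smooth curve `C` over `F` with a map to `X_y` has a section of the map from `π₁(C)` to the absolute
Galois group of `F` which satisfies the valuative form of the section conjecture over the completions
of `F` at all finite places (that is, the restriction to the absolute Galois group of `F_w` lies in
the decomposition group of a valuation with residue field `F_w`).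

The field `N` can be any extension of the function field `L` of `C` in the algebraic closure `Ω` of
`L` which contains the maximal extension `unramified L Ω U` of `L` unramified over the valuation rings
`O ∈ U` of the points of `C`. In particular `N = Ω` (sections of the absolute Galois group) is allowed.
The proof: the corestriction to `K` of the classes given by a section over `F` is locally given by the
traces of the local points, so it comes from `E(K)` modulo `N`; then a sieve with reductions and the
determinant method.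
-/

set_option autoImplicit false

namespace Pool.Agent.Results.MP_896029_ag.SectionsOverExtensions

open MvPolynomial NumberField IsDedekindDomain Pool.Agent.TH954 Pool.Agent.W620.SC

open scoped LinearAlgebra.Projectivization

/-- the curve `y² = x³ + a x + b` -/
def curve {F : Type} [Field F] (a b : F) : WeierstrassCurve F := ⟨0, 0, 0, a, b⟩

/-- homogeneous coordinates of a point in the projective plane -/
def coords {F : Type} [Field F] {W : WeierstrassCurve F} : W.toAffine.Point → Fin 3 → F
  | .zero => ![0, 1, 0]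
  | .some x y _ => ![x, y, 1]

/-- `F` is homogeneous of degree `d i` in the coordinates `(i, 0), (i, 1), (i, 2)` of the `i`-th
point of the plane, and homogeneous of degree `m` in the last `n + 1` variables -/
def MultiHomog {O : Type} [CommRing O] {r n : ℕ}
    (F : MvPolynomial ((Fin r × Fin 3) ⊕ Fin (n + 1)) O) (d : Fin r → ℕ) (m : ℕ) : Prop :=
  ∀ e ∈ F.support, (∀ i, ∑ j, e (Sum.inl (i, j)) = d i) ∧ ∑ i, e (Sum.inr i) = m

open scoped Classical in
/-- `S` is a sum of `m` complex points `P` of the member `X_y`, that is, with `G_e(P; y) = 0` for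
all `e` -/
def IsSum {K : Type} [Field K] (σ : K →+* ℂ) (a b : 𝓞 K) {r n q : ℕ}
    (G : Fin q → MvPolynomial ((Fin r × Fin 3) ⊕ Fin (n + 1)) (𝓞 K)) (m : ℕ)
    (S : Fin r → (curve (σ a) (σ b)).toAffine.Point) (y : Fin (n + 1) → ℂ) : Prop :=
  ∃ P : Fin m → Fin r → (curve (σ a) (σ b)).toAffine.Point,
    (∀ j e, eval₂ (σ.comp (algebraMap (𝓞 K) K))
      (Sum.elim (fun il => coords (P j il.1) il.2) y) (G e) = 0) ∧ ∀ i, ∑ j, P j i = S i

/-- the equations `G_e(V; y) = 0`, over the extension `F` of `K`, of the member `X_y`, for a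
`K`-rational point `y` of `ℙ ^ n` -/
noncomputable def MemberOver {K : Type} [Field K] {r n q : ℕ}
    (G : Fin q → MvPolynomial ((Fin r × Fin 3) ⊕ Fin (n + 1)) (𝓞 K)) (F : Type) [Field F]
    [Algebra K F] (y : ℙ K (Fin (n + 1) → K)) : Set (MvPolynomial (Fin r × Fin 3) F) :=
  Set.range fun e => eval₂ (C.comp ((algebraMap K F).comp (algebraMap (𝓞 K) K)))
    (Sum.elim X (fun i => C (algebraMap K F (y.rep i)))) (G e)

theorem coords_eq {F : Type} [Field F] {a b : F} (P : Pool.Agent.H901R3.MS.Pt a b) :
    coords P = Pool.Agent.H901R3.MS.rep P := by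
  rcases P with _ | ⟨x, y, h⟩ <;> rfl

theorem result (K : Type) [Field K] [NumberField K] (a b : 𝓞 K)
    (hE : 4 * a ^ 3 + 27 * b ^ 2 ≠ 0) (M₀ : ℕ) (hM1 : 1 ≤ M₀)
    (hM : ShaKilledBy (curve (a : K) (b : K)) M₀) (r n q : ℕ)
    (G : Fin q → MvPolynomial ((Fin r × Fin 3) ⊕ Fin (n + 1)) (𝓞 K))
    (d : Fin q → Fin r → ℕ) (deg : Fin q → ℕ) (hG : ∀ e, MultiHomog (G e) (d e) (deg e))
    (σ : K →+* ℂ) (M k : ℕ) (hk : 1 ≤ k)
    (hX : ∀ m, 1 ≤ m → m ≤ M → ∀ S : Fin r → (curve (σ a) (σ b)).toAffine.Point,
      ∃ g : MvPolynomial (Fin (n + 1)) ℂ, g ≠ 0 ∧ g.IsHomogeneous k ∧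
        ∀ y : ℙ ℂ (Fin (n + 1) → ℂ), IsSum σ a b G m S y.rep → eval y.rep g = 0)
    (ε : ℝ) (hε : 0 < ε) :
    ∃ C : ℝ, ∀ B : ℝ, 1 ≤ B → ∃ FF : Finset (MvPolynomial (Fin (n + 1)) K),
      (FF.card : ℝ) ≤ C * B ^ ε ∧ (∀ f ∈ FF, f ≠ 0 ∧ f.IsHomogeneous k) ∧
      ∀ y : ℙ K (Fin (n + 1) → K), y.mulHeight ≤ B → (∀ f ∈ FF, eval y.rep f ≠ 0) →
      ∀ (F : Type) [Field F] [NumberField F] [Algebra K F] (_ : Module.finrank K F ≤ M)
        (L Ω N A : Type) [Field L] [Field Ω] [Field N] [Field A] [Algebra F L] [Algebra L Ω]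
        [Algebra F Ω] [Algebra L N] [Algebra F N] [Algebra F A] [IsScalarTower F L Ω]
        [IsScalarTower F L N] [IsAlgClosure L Ω] [IsAlgClosure F A]
        (U : Set (ValuationSubring L)) (_ : ∀ O ∈ U, ∀ c : F, algebraMap F L c ∈ O)
        (e : N →ₐ[L] Ω) (_ : unramified L Ω U ≤ e.fieldRange)
        (P : Fin r → ((curve (algebraMap K F a) (algebraMap K F b)).baseChange L).toAffine.Point)
        (_ : OnX (MemberOver G F y) (fun i => crd (P i))) (s : GalSection F L N A),
        ¬ ∀ w : HeightOneSpectrum (𝓞 F),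
          s.GeometricOver (w.adicCompletion F) (AlgebraicClosure (w.adicCompletion F)) := by
  obtain ⟨C, hC⟩ := Pool.Agent.Y213.CT.partAH K r (n + 1) q (Finset.range M) a b hE G d deg
    (fun e x hx => (hG e x hx).1) (fun e x hx => (hG e x hx).2) k hk σ (by
      intro m hm S
      rw [Finset.mem_range] at hm
      obtain ⟨g, hg0, hg1, hg2⟩ := hX (m + 1) (by omega) (by omega) S
      refine ⟨g, hg0, hg1, fun y hy => hg2 y ?_⟩
      obtain ⟨P, hP1, hP2⟩ := hy
      refine ⟨P, fun j e => ?_, hP2⟩
      have h1 := hP1 j e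
      unfold Pool.Agent.Y213.EC.vl at h1
      rw [← h1]
      congr 1
      funext ij
      rcases ij with ij | i
      · exact congrFun (coords_eq (P j ij.1)) ij.2
      · rfl) ε hε
  refine ⟨C, fun B hB => ?_⟩
  obtain ⟨FF, h1, h2, h3⟩ := hC B hB
  refine ⟨FF, h1, h2, ?_⟩
  intro y hyB hyF F _ _ _ hdeg L Ω N A _ _ _ _ _ _ _ _ _ _ _ _ _ _ U hU e he P hPS s hloc
  haveI : Module.Finite K F := Module.Finite.of_restrictScalars_finite ℚ K F
  have hpos : 0 < Module.finrank K F := Module.finrank_pos
  choose p hp using hloc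
  have hsv : Pool.Agent.Y213.CT.HL a b G (Module.finrank K F - 1) y.rep :=
    Pool.Agent.Y213.CT.hl_of_section Pool.Agent.Y213.CT.tEmb Pool.Agent.Y213.CT.tGal
      Pool.Agent.Y213.CT.tUni Pool.Agent.Y213.CT.tPlc a b hE G d deg
      (fun e x hx => (hG e x hx).1) (fun e x hx => (hG e x hx).2) hM1 hM
      (Module.finrank K F - 1) y.rep F (by omega) U hU e he P hPS s p hp
  obtain ⟨f, hf, hf0⟩ := h3 y ⟨_, Finset.mem_range.2 (by omega), hsv⟩ hyB
  exact hyF f hf hf0

end Pool.Agent.Results.MP_896029_ag.SectionsOverExtensions
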